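import Pool.Agent.W95.BK.Stm

set_option autoImplicit false

open Polynomial Topology Filter MeasureTheory

namespace Pool.Agent.W645.BK

open Pool.Agent.W95.BK

universe u

section alg
variable {K : Type u} [Field K]

theorem Q_ne (f : RMap K) : f.Q ≠ 0 := by
  intro h
  have hc := f.cop
  rw [h, isCoprime_zero_right] at hc
  have h1 : f.P.natDegree = 0 := natDegree_eq_zero_of_isUnit hc
  have h2 := f.deg_eq
  rw [h1, h, natDegree_zero, max_self] at h2
  have := f.pos
  omega

theorem PQ_ne (f : RMap K) (b : K) : f.P - C b * f.Q ≠ 0 := by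
  intro h
  have hP : f.P = C b * f.Q := sub_eq_zero.1 h
  have hu : IsUnit f.Q := by
    obtain ⟨s, t, hst⟩ := f.cop
    refine IsUnit.of_mul_eq_one (s * C b + t) ?_
    rw [← hst, hP]; ring
  have h1 : f.Q.natDegree = 0 := natDegree_eq_zero_of_isUnit hu
  have h2 : f.P.natDegree = 0 := by
    have : (C b * f.Q).natDegree ≤ f.Q.natDegree := natDegree_C_mul_le _ _
    rw [hP]; omega
  have h3 := f.deg_eq
  rw [h1, h2, max_self] at h3
  have := f.pos
  omega

theorem hom_lin (P Q : K[X]) (b : K) : hom (X - C b).natDegree (X - C b) P Q = P - C b * Q := by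
  rw [natDegree_X_sub_C]
  unfold hom
  rw [Finset.sum_range_succ, Finset.sum_range_one]
  simp [coeff_X]
  ring

theorem deg_le (f : RMap K) (b : K) : (f.P - C b * f.Q).natDegree ≤ f.d := by
  have h1 : f.P.natDegree ≤ f.d := f.deg_eq ▸ le_max_left _ _
  have h2 : f.Q.natDegree ≤ f.d := f.deg_eq ▸ le_max_right _ _
  refine (natDegree_sub_le _ _).trans (max_le h1 ?_)
  exact (natDegree_C_mul_le _ _).trans h2

theorem lead_ne (f : RMap K) : ¬ (f.P.coeff f.d = 0 ∧ f.Q.coeff f.d = 0) := by
  have h := nonvanish f.cop f.deg_eq 1 0 (by simp)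
  rw [sum_eq_top, sum_eq_top] at h
  simpa using h

end alg

section act
variable {K : Type u} [NontriviallyNormedField K] [IsUltrametricDist K]

theorem push_apply (f : RMap K) (x : BA K) (hx : x f.Q ≠ 0) (h : K[X]) :
    (push f x hx).toFun h = x.toFun (hom h.natDegree h f.P f.Q) / x.toFun f.Q ^ h.natDegree := rfl

theorem push_lam (f : RMap K) (x : BA K) (hx : x f.Q ≠ 0) (b : K) :
    lam (push f x hx) b = x (f.P - C b * f.Q) / x f.Q := by
  unfold lam
  rw [push_apply, hom_lin, natDegree_X_sub_C, pow_one]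

theorem act_of_ne (f : RMap K) (x : BA K) (hx : x f.Q ≠ 0) :
    f.act (x : P1B K) = ((push f x hx : BA K) : P1B K) := by
  unfold RMap.act
  rw [OnePoint.elim_some, dif_pos hx]

theorem act_of_eq (f : RMap K) (x : BA K) (hx : x f.Q = 0) :
    f.act (x : P1B K) = OnePoint.infty := by
  unfold RMap.act
  rw [OnePoint.elim_some, dif_neg (by simpa using hx)]

theorem push_cl (f : RMap K) (w : K) (hw : f.Q.eval w ≠ 0) (hx : (cl w : BA K) f.Q ≠ 0) :
    push f (cl w) hx = cl (f.P.eval w / f.Q.eval w) := by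
  ext h
  change ‖(hom h.natDegree h f.P f.Q).eval w‖ / ‖f.Q.eval w‖ ^ h.natDegree =
    ‖h.eval (f.P.eval w / f.Q.eval w)‖
  rw [eval_hom, sum_eq_eval le_rfl _ _ hw, norm_mul, norm_pow]
  have h1 : ‖f.Q.eval w‖ ^ h.natDegree ≠ 0 := pow_ne_zero _ (norm_ne_zero_iff.2 hw)
  field_simp

theorem act_cl (f : RMap K) (w : K) (hw : f.Q.eval w ≠ 0) :
    f.act ((cl w : BA K) : P1B K) = ((cl (f.P.eval w / f.Q.eval w) : BA K) : P1B K) := by
  have hx : (cl w : BA K) f.Q ≠ 0 := norm_ne_zero_iff.2 hw
  rw [act_of_ne f _ hx, push_cl f w hw hx]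

theorem act_cl0 (f : RMap K) (w : K) (hw : f.Q.eval w = 0) :
    f.act ((cl w : BA K) : P1B K) = OnePoint.infty :=
  act_of_eq f _ (by change ‖f.Q.eval w‖ = 0; rw [hw, norm_zero])

theorem act_infty (f : RMap K) (h : f.Q.coeff f.d ≠ 0) :
    f.act (OnePoint.infty : P1B K) = ((cl (f.P.coeff f.d / f.Q.coeff f.d) : BA K) : P1B K) := by
  unfold RMap.act
  rw [OnePoint.elim_infty, if_neg h]

end act

theorem main : S_AVOID.{u} → S_ACT.{u} := by
  intro hav K _ _ _ f
  refine ⟨?_, act_cl f, act_cl0 f, ?_, ?_⟩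
  · intro x hx
    have hQ : x f.Q ≠ 0 := (hav K x hx).1 _ (Q_ne f)
    refine ⟨push f x hQ, ?_, act_of_ne f x hQ, fun h => rfl, push_lam f x hQ⟩
    intro b hb
    have h1 := push_lam f x hQ b
    rw [hb] at h1
    have h2 : lam (cl b : BA K) b = 0 := by
      change ‖(X - C b).eval b‖ = 0
      simp
    rw [h2] at h1
    have h3 : x (f.P - C b * f.Q) ≠ 0 := (hav K x hx).1 _ (PQ_ne f b)
    exact (div_ne_zero h3 hQ) h1.symm
  · intro b w hw
    unfold fib at hw
    rcases Multiset.mem_add.1 hw with hw | hw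
    · obtain ⟨t, ht, rfl⟩ := Multiset.mem_map.1 hw
      have h1 : (f.P - C b * f.Q).eval t = 0 := (mem_roots'.1 ht).2
      have h2 : f.P.eval t = b * f.Q.eval t := by
        rw [eval_sub, eval_mul, eval_C] at h1
        exact sub_eq_zero.1 h1
      have h3 : f.Q.eval t ≠ 0 := by
        intro h0
        obtain ⟨p, q, hpq⟩ := f.cop
        have h4 := congrArg (eval t) hpq
        rw [eval_add, eval_mul, eval_mul, h2, h0] at h4
        simp at h4
      rw [act_cl f t h3, h2, mul_div_assoc, div_self h3, mul_one]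
    · have h1 := Multiset.mem_replicate.1 hw
      rw [h1.2]
      have hlt : (f.P - C b * f.Q).natDegree < f.d := by omega
      have h2 : (f.P - C b * f.Q).coeff f.d = 0 := coeff_eq_zero_of_natDegree_lt hlt
      rw [coeff_sub, coeff_C_mul] at h2
      have h3 : f.P.coeff f.d = b * f.Q.coeff f.d := sub_eq_zero.1 h2
      have h4 : f.Q.coeff f.d ≠ 0 := by
        intro h0
        exact lead_ne f ⟨by rw [h3, h0, mul_zero], h0⟩
      rw [act_infty f h4, h3, mul_div_assoc, div_self h4, mul_one]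
  · intro b
    unfold fib
    rw [Multiset.card_add, Multiset.card_map, Multiset.card_replicate,
      IsAlgClosed.card_roots_eq_natDegree]
    have := deg_le f b
    omega

theorem main' : S_VAL.{u} → S_AVOID.{u} → S_ACT.{u} := fun _ => main

end Pool.Agent.W645.BK
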